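import Pool.Agent.Lib.MP_522d9f_ag.Mat

/-! From the integer tables to an invertible matrix over `ZMod 139`. -/

set_option autoImplicit false

namespace Pool.Agent.Lib.MP_522d9f_ag

theorem dot_eq (n : ℕ) : ∀ (l m : List ℕ), l.length = n → m.length = n →
    dot l m = ∑ i : Fin n, l.getD i 0 * m.getD i 0 := by
  induction n with
  | zero =>
    intro l m hl hm
    have : l = [] := List.length_eq_zero_iff.mp hl
    subst this
    simp [dot]
  | succ n ih =>
    intro l m hl hm
    match l, m, hl, hm with
    | a :: l, b :: m, hl, hm =>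
      simp only [List.length_cons, Nat.add_right_cancel_iff] at hl hm
      rw [dot, ih l m hl hm, Fin.sum_univ_succ]
      simp

theorem checkRow_spec (r : List ℕ) (j : ℕ) : ∀ (cs : List (List ℕ)) (m0 : ℕ),
    checkRow r j cs m0 = true → ∀ m, m < cs.length →
      dot r (cs.getD m []) % 139 = if j = m0 + m then 1 else 0 := by
  intro cs
  induction cs with
  | nil => intro m0 _ m hm; simp at hm
  | cons c cs ih =>
    intro m0 h m hm
    rw [checkRow, Bool.and_eq_true] at h
    cases m with
    | zero => simpa using h.1
    | succ m =>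
      have := ih (m0 + 1) h.2 m (by simpa using hm)
      simp only [List.getD_cons_succ]
      rw [this]
      have e : m0 + 1 + m = m0 + (m + 1) := by ring
      rw [e]

theorem checkAll_spec (cols : List (List ℕ)) : ∀ (rs : List (List ℕ)) (j0 : ℕ),
    checkAll cols rs j0 = true → ∀ j, j < rs.length → ∀ m, m < cols.length →
      dot (rs.getD j []) (cols.getD m []) % 139 = if j0 + j = m then 1 else 0 := by
  intro rs
  induction rs with
  | nil => intro j0 _ j hj; simp at hj
  | cons r rs ih =>
    intro j0 h j hj m hm
    rw [checkAll, Bool.and_eq_true] at h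
    cases j with
    | zero =>
      have := checkRow_spec r j0 cols 0 h.1 m hm
      simpa using this
    | succ j =>
      have := ih (j0 + 1) h.2 j (by simpa using hj) m hm
      simp only [List.getD_cons_succ]
      rw [this]
      have e : j0 + 1 + j = j0 + (j + 1) := by ring
      rw [e]

theorem checkCol_spec (e : ℕ × ℕ × ℕ) : ∀ (Ps : List (ℕ × ℕ × ℕ)) (c : List ℕ),
    checkCol e Ps c = true → ∀ i, i < Ps.length →
      c.getD i 0 = ((Ps.getD i (0, 0, 0)).1 ^ e.1 * (Ps.getD i (0, 0, 0)).2.1 ^ e.2.1 *
        (Ps.getD i (0, 0, 0)).2.2 ^ e.2.2) % 139 := by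
  intro Ps
  induction Ps with
  | nil => intro c _ i hi; simp at hi
  | cons P Ps ih =>
    intro c h i hi
    match c, h with
    | a :: as, h =>
      rw [checkCol, Bool.and_eq_true] at h
      cases i with
      | zero =>
        have := h.1
        simp only [beq_iff_eq] at this
        simp [this]
      | succ i =>
        have := ih as h.2 i (by simpa using hi)
        simpa using this

theorem checkCols_spec (Ps : List (ℕ × ℕ × ℕ)) : ∀ (es : List (ℕ × ℕ × ℕ)) (cs : List (List ℕ)),
    checkCols Ps es cs = true → ∀ m, m < es.length → ∀ i, i < Ps.length →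
      (cs.getD m []).getD i 0 = ((Ps.getD i (0, 0, 0)).1 ^ (es.getD m (0, 0, 0)).1 *
        (Ps.getD i (0, 0, 0)).2.1 ^ (es.getD m (0, 0, 0)).2.1 *
        (Ps.getD i (0, 0, 0)).2.2 ^ (es.getD m (0, 0, 0)).2.2) % 139 := by
  intro es
  induction es with
  | nil => intro cs _ m hm; simp at hm
  | cons e es ih =>
    intro cs h m hm i hi
    match cs, h with
    | c :: cs, h =>
      rw [checkCols, Bool.and_eq_true] at h
      cases m with
      | zero => simpa using checkCol_spec e Ps c h.1 i hi
      | succ m =>
        have := ih cs h.2 m (by simpa using hm) i hi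
        simpa using this

theorem invL_length : invL.length = 45 := by decide
theorem colL_length : colL.length = 45 := by decide
theorem expoL_length : expoL.length = 45 := by decide
theorem resL_length : resL.length = 45 := by decide
theorem invL_rows : ∀ j : Fin 45, (invL.getD j []).length = 45 := by decide
theorem colL_rows : ∀ j : Fin 45, (colL.getD j []).length = 45 := by decide

/-- The residues of the 45 points. -/
def res (i : Fin 45) : ℕ × ℕ × ℕ := resL.getD i (0, 0, 0)

/-- The exponents of the 45 monomials. -/
def expo (m : Fin 45) : ℕ × ℕ × ℕ := expoL.getD m (0, 0, 0)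

/-- The evaluation matrix modulo 139. -/
def Abar : Matrix (Fin 45) (Fin 45) (ZMod 139) := fun i m =>
  ((res i).1 : ZMod 139) ^ (expo m).1 * ((res i).2.1 : ZMod 139) ^ (expo m).2.1 *
    ((res i).2.2 : ZMod 139) ^ (expo m).2.2

/-- The inverse matrix modulo 139. -/
def Nbar : Matrix (Fin 45) (Fin 45) (ZMod 139) := fun j i => ((invL.getD j []).getD i 0 : ℕ)

theorem Abar_eq (i m : Fin 45) : Abar i m = (((colL.getD m []).getD i 0 : ℕ) : ZMod 139) := by
  have h := checkCols_spec resL expoL colL checkCols_ok m (by rw [expoL_length]; exact m.2) i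
    (by rw [resL_length]; exact i.2)
  rw [h, ZMod.natCast_mod]
  simp only [Abar, res, expo, Nat.cast_mul, Nat.cast_pow]

theorem Nbar_mul_Abar : Nbar * Abar = 1 := by
  ext j m
  rw [Matrix.mul_apply, Matrix.one_apply]
  have h := checkAll_spec colL invL 0 checkAll_ok j (by rw [invL_length]; exact j.2) m
    (by rw [colL_length]; exact m.2)
  rw [dot_eq 45 _ _ (invL_rows j) (colL_rows m)] at h
  have h2 : (∑ i, Nbar j i * Abar i m) =
      ((∑ i : Fin 45, (invL.getD j []).getD i 0 * (colL.getD m []).getD i 0 : ℕ) : ZMod 139) := by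
    push_cast
    refine Finset.sum_congr rfl fun i _ => ?_
    rw [Abar_eq]
    rfl
  rw [h2, ← ZMod.natCast_mod, h]
  by_cases hjm : j = m
  · subst hjm; simp
  · have : ¬ (0 + (j : ℕ) = (m : ℕ)) := by
      intro hh; apply hjm; apply Fin.ext; omega
    rw [if_neg this, if_neg hjm]; simp

instance fact139 : Fact (Nat.Prime 139) := ⟨by norm_num⟩

theorem det_Abar_ne_zero : Abar.det ≠ 0 := by
  intro h
  have h2 := congrArg Matrix.det Nbar_mul_Abar
  rw [Matrix.det_mul, h, mul_zero, Matrix.det_one] at h2
  exact zero_ne_one h2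

end Pool.Agent.Lib.MP_522d9f_ag
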