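import Pool.Agent.Lib.MP_522d9f_ag.Points

/-! Lifting to the 139-adic integers. -/

set_option autoImplicit false

namespace Pool.Agent.Lib.MP_522d9f_ag

theorem exists_root (b c n : ℤ) (h1 : (139 : ℤ) ∣ n ^ 2 + b * n + c) (h2 : ¬ (139 : ℤ) ∣ 2 * n + b) :
    ∃ z : ℤ_[139], z ^ 2 + b * z + c = 0 ∧ PadicInt.toZMod z = (n : ZMod 139) := by
  let F : Polynomial ℤ_[139] := Polynomial.X ^ 2 + Polynomial.C (b : ℤ_[139]) * Polynomial.X +
    Polynomial.C (c : ℤ_[139])
  have hF : ∀ z : ℤ_[139], Polynomial.aeval z F = z ^ 2 + b * z + c := by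
    intro z; simp [F]
  have hF' : ∀ z : ℤ_[139], Polynomial.aeval z (Polynomial.derivative F) = 2 * z + b := by
    intro z; simp [F, one_add_one_eq_two]
  have hn1 : ‖Polynomial.aeval (n : ℤ_[139]) F‖ < 1 := by
    rw [hF]
    have : ((n : ℤ_[139]) ^ 2 + b * n + c) = ((n ^ 2 + b * n + c : ℤ) : ℤ_[139]) := by push_cast; ring
    rw [this, PadicInt.norm_int_lt_one_iff_dvd]
    exact_mod_cast h1
  have hn2 : ‖Polynomial.aeval (n : ℤ_[139]) (Polynomial.derivative F)‖ = 1 := by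
    rw [hF']
    have : ((2 : ℤ_[139]) * n + b) = ((2 * n + b : ℤ) : ℤ_[139]) := by push_cast; ring
    rw [this]
    apply le_antisymm (PadicInt.norm_le_one _)
    by_contra hlt
    push Not at hlt
    rw [PadicInt.norm_int_lt_one_iff_dvd] at hlt
    exact h2 (by exact_mod_cast hlt)
  obtain ⟨z, hz1, hz2, -⟩ := hensels_lemma (p := 139) (R := ℤ_[139]) (F := F) (a := (n : ℤ_[139]))
    (by rw [hn2]; simpa using hn1)
  refine ⟨z, ?_, ?_⟩
  · rw [← hF]; exact hz1
  · rw [hn2] at hz2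
    have h3 : z - (n : ℤ_[139]) ∈ IsLocalRing.maximalIdeal ℤ_[139] := by
      rw [PadicInt.maximalIdeal_eq_span_p, Ideal.mem_span_singleton]
      rw [PadicInt.norm_lt_one_iff_dvd] at hz2
      exact hz2
    rw [← PadicInt.ker_toZMod, RingHom.mem_ker, map_sub, sub_eq_zero] at h3
    rw [h3]
    simp

/-- The evaluation matrix on degree 8 monomials of a family of 45 vectors. -/
def evalMat {R : Type*} [CommRing R] (P : Fin 45 → R × R × R) : Matrix (Fin 45) (Fin 45) R :=
  fun i m => (P i).1 ^ (expo m).1 * (P i).2.1 ^ (expo m).2.1 * (P i).2.2 ^ (expo m).2.2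

theorem evalMat_map {R S : Type*} [CommRing R] [CommRing S] (f : R →+* S) (P : Fin 45 → R × R × R) :
    (evalMat P).map f = evalMat (fun i => mapP f (P i)) := by
  ext i m
  simp [evalMat, mapP]

theorem evalMat_mod : evalMat (pt (42 : ZMod 139) 20 50 63) = Abar := by
  ext i m
  simp only [evalMat, pt_mod, Abar]

theorem exists_padic : ∃ w a r g : ℤ_[139], w ^ 2 + w + 1 = 0 ∧ a ^ 2 + a - 3 = 0 ∧ r ^ 2 + 2 = 0 ∧
    g ^ 2 + g - 1 = 0 ∧ (evalMat (pt w a r g)).det ≠ 0 := by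
  obtain ⟨w, hw, hw'⟩ := exists_root 1 1 42 (by norm_num) (by norm_num)
  obtain ⟨a, ha, ha'⟩ := exists_root 1 (-3) 20 (by norm_num) (by norm_num)
  obtain ⟨r, hr, hr'⟩ := exists_root 0 2 50 (by norm_num) (by norm_num)
  obtain ⟨g, hg, hg'⟩ := exists_root 1 (-1) 63 (by norm_num) (by norm_num)
  push_cast at hw ha hr hg hw' ha' hr' hg'
  refine ⟨w, a, r, g, by linear_combination hw, by linear_combination ha, by linear_combination hr,
    by linear_combination hg, ?_⟩
  intro hdet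
  apply det_Abar_ne_zero
  have := congrArg (PadicInt.toZMod (p := 139)) hdet
  rw [RingHom.map_det, map_zero, RingHom.mapMatrix_apply, evalMat_map] at this
  rw [← evalMat_mod, ← this]
  congr 2
  funext i
  rw [mapP_pt, hw', ha', hr', hg']

end Pool.Agent.Lib.MP_522d9f_ag
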