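import Pool.Agent.Lib.MP_522d9f_ag.Inv

/-! The 45 points: definition over a commutative ring with elements `w`, `a`, `r`, `g` satisfying
`w^2+w+1 = 0`, `a^2+a-3 = 0`, `r^2+2 = 0`, `g^2+g-1 = 0`, and their exact vanishing properties. -/

set_option autoImplicit false
set_option linter.unusedVariables false

namespace Pool.Agent.Lib.MP_522d9f_ag

section ring

variable {R : Type*} [CommRing R]

/-- The six quadratic forms. -/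
def up (P : R × R × R) : R := P.2.1 ^ 2 + P.2.1 * P.2.2 - P.2.2 ^ 2
def um (P : R × R × R) : R := P.2.1 ^ 2 - P.2.1 * P.2.2 - P.2.2 ^ 2
def vp (P : R × R × R) : R := P.2.2 ^ 2 + P.2.2 * P.1 - P.1 ^ 2
def vm (P : R × R × R) : R := P.2.2 ^ 2 - P.2.2 * P.1 - P.1 ^ 2
def wp (w : R) (P : R × R × R) : R := P.1 ^ 2 + w ^ 2 * P.1 * P.2.1 - w * P.2.1 ^ 2
def wm (w : R) (P : R × R × R) : R := P.1 ^ 2 - w ^ 2 * P.1 * P.2.1 - w * P.2.1 ^ 2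

/-- The symmetry of the configuration. -/
def T (w : R) (P : R × R × R) : R × R × R := (-(w ^ 2) * P.2.2, P.1, w ^ 2 * P.2.1)

/-- Representatives of the orbits of points. -/
def rep (w a r g : R) (i : ℕ) : R × R × R :=
  match i with
  | 0 => (-1, 1, -2 - w)
  | 1 => (-1, 1, 1 + w)
  | 2 => (-1, 1, w - 1)
  | 3 => (1, 0, 1)
  | 4 => (1 - w, w, 1 - 2 * w)
  | 5 => (1, w - 1, 2 - w)
  | 6 => (1, 1 - 2 * w, 2 - w)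
  | 7 => (-1, 1, a)
  | 8 => (-1, 1, -1 - a)
  | 9 => (1, 1 + w ^ 2 * r, -w + w ^ 2 * r)
  | 10 => (1, 1 - w ^ 2 * r, -w - w ^ 2 * r)
  | 11 => (1, g * g, g)
  | 12 => (1, g * (-1 - g), g)
  | 13 => (1, (-1 - g) * g, -1 - g)
  | _ => (1, (-1 - g) * (-1 - g), -1 - g)

/-- The 45 points. -/
def pt (w a r g : R) (i : Fin 45) : R × R × R := (T w)^[(i : ℕ) / 15] (rep w a r g ((i : ℕ) % 15))

/-- `P` is a point at which the degree 18 form has multiplicity at least three, for one of four reasons. -/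
def Good (w : R) (P : R × R × R) : Prop :=
  (up P ^ 3 + vp P ^ 3 = 0 ∧ um P ^ 3 + wp w P ^ 3 = 0 ∧ vm P ^ 3 + wm w P ^ 3 = 0) ∨
  (up P = 0 ∧ vp P = 0) ∨ (um P = 0 ∧ wp w P = 0) ∨ (vm P = 0 ∧ wm w P = 0)

variable {w a r g : R}

theorem w3 (hw : w ^ 2 + w + 1 = 0) : w ^ 3 = 1 := by linear_combination (w - 1) * hw

theorem up_T (w : R) (P : R × R × R) (hw : w ^ 2 + w + 1 = 0) : up (T w P) = wp w P := by
  simp only [up, T, wp]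
  linear_combination (-(w ^ 2 - w) * P.2.1 ^ 2) * hw

theorem um_T (w : R) (P : R × R × R) (hw : w ^ 2 + w + 1 = 0) : um (T w P) = wm w P := by
  simp only [um, T, wm]
  linear_combination (-(w ^ 2 - w) * P.2.1 ^ 2) * hw

theorem vp_T (w : R) (P : R × R × R) (hw : w ^ 2 + w + 1 = 0) : vp (T w P) = w * um P := by
  simp only [vp, T, um]
  linear_combination ((w ^ 2 - w) * (P.2.1 ^ 2 - P.2.1 * P.2.2 - P.2.2 ^ 2)) * hw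

theorem vm_T (w : R) (P : R × R × R) (hw : w ^ 2 + w + 1 = 0) : vm (T w P) = w * up P := by
  simp only [vm, T, up]
  linear_combination ((w ^ 2 - w) * (P.2.1 ^ 2 + P.2.1 * P.2.2 - P.2.2 ^ 2)) * hw

theorem wp_T (w : R) (P : R × R × R) (hw : w ^ 2 + w + 1 = 0) : wp w (T w P) = w * vm P := by
  simp only [wp, T, vm]
  linear_combination ((w ^ 2 - w) * (P.2.2 ^ 2 - P.2.2 * P.1)) * hw

theorem wm_T (w : R) (P : R × R × R) (hw : w ^ 2 + w + 1 = 0) : wm w (T w P) = w * vp P := by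
  simp only [wm, T, vp]
  linear_combination ((w ^ 2 - w) * (P.2.2 ^ 2 + P.2.2 * P.1)) * hw

theorem Good.T {P : R × R × R} (hw : w ^ 2 + w + 1 = 0) (h : Good w P) : Good w (T w P) := by
  have h3 := w3 hw
  unfold Good at *
  rw [up_T w P hw, um_T w P hw, vp_T w P hw, vm_T w P hw, wp_T w P hw, wm_T w P hw]
  rcases h with ⟨h1, h2, h4⟩ | ⟨h1, h2⟩ | ⟨h1, h2⟩ | ⟨h1, h2⟩
  · left
    refine ⟨?_, ?_, ?_⟩
    · linear_combination h2 + um P ^ 3 * h3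
    · linear_combination h4 + vm P ^ 3 * h3
    · linear_combination h1 + (up P ^ 3 + vp P ^ 3) * h3
  · right; right; right
    exact ⟨by rw [h1, mul_zero], by rw [h2, mul_zero]⟩
  · right; left
    exact ⟨h2, by rw [h1, mul_zero]⟩
  · right; right; left
    exact ⟨h2, by rw [h1, mul_zero]⟩

theorem good_0 (hw : w ^ 2 + w + 1 = 0) (ha : a ^ 2 + a - 3 = 0) (hr : r ^ 2 + 2 = 0) : Good w (rep w a r g 0) := by
  left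
  simp only [rep, up, um, vp, vm, wp, wm]
  refine ⟨?_, ?_, ?_⟩
  · ring
  · linear_combination ((-2) * w ^ 4 + (-10) * w ^ 3 + (-18) * w ^ 2 + (-12) * w) * hw
  · linear_combination ((2) * w ^ 4 + (4) * w ^ 3 + (30) * w ^ 2 + (4) * w + (2)) * hw

theorem good_1 (hw : w ^ 2 + w + 1 = 0) (ha : a ^ 2 + a - 3 = 0) (hr : r ^ 2 + 2 = 0) : Good w (rep w a r g 1) := by
  left
  simp only [rep, up, um, vp, vm, wp, wm]
  refine ⟨?_, ?_, ?_⟩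
  · ring
  · linear_combination ((-2) * w ^ 4 + (-10) * w ^ 3 + (-18) * w ^ 2 + (-12) * w) * hw
  · linear_combination ((2) * w ^ 4 + (4) * w ^ 3 + (30) * w ^ 2 + (4) * w + (2)) * hw

theorem good_2 (hw : w ^ 2 + w + 1 = 0) (ha : a ^ 2 + a - 3 = 0) (hr : r ^ 2 + 2 = 0) : Good w (rep w a r g 2) := by
  left
  simp only [rep, up, um, vp, vm, wp, wm]
  refine ⟨?_, ?_, ?_⟩
  · ring
  · linear_combination ((-2) * w ^ 4 + (2) * w ^ 3 + (-2) * w + (2)) * hw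
  · linear_combination ((2) * w ^ 4 + (-8) * w ^ 3 + (12) * w ^ 2 + (-6) * w) * hw

theorem good_3 (hw : w ^ 2 + w + 1 = 0) (ha : a ^ 2 + a - 3 = 0) (hr : r ^ 2 + 2 = 0) : Good w (rep w a r g 3) := by
  left
  simp only [rep, up, um, vp, vm, wp, wm]
  refine ⟨?_, ?_, ?_⟩
  · ring
  · ring
  · ring

theorem good_4 (hw : w ^ 2 + w + 1 = 0) (ha : a ^ 2 + a - 3 = 0) (hr : r ^ 2 + 2 = 0) : Good w (rep w a r g 4) := by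
  left
  simp only [rep, up, um, vp, vm, wp, wm]
  refine ⟨?_, ?_, ?_⟩
  · ring
  · linear_combination ((-1) * w ^ 10 + w ^ 9 + (3) * w ^ 8 + (-10) * w ^ 7 + (7) * w ^ 6 + (15) * w ^ 5 + (-40) * w ^ 4 + (40) * w ^ 3 + (-18) * w ^ 2 + (3) * w) * hw
  · linear_combination (w ^ 10 + (-7) * w ^ 9 + (21) * w ^ 8 + (-40) * w ^ 7 + (61) * w ^ 6 + (-75) * w ^ 5 + (70) * w ^ 4 + (-46) * w ^ 3 + (18) * w ^ 2 + (-3) * w) * hw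

theorem good_5 (hw : w ^ 2 + w + 1 = 0) (ha : a ^ 2 + a - 3 = 0) (hr : r ^ 2 + 2 = 0) : Good w (rep w a r g 5) := by
  left
  simp only [rep, up, um, vp, vm, wp, wm]
  refine ⟨?_, ?_, ?_⟩
  · ring
  · linear_combination ((2) * w ^ 4 + (-8) * w ^ 3 + (12) * w ^ 2 + (-6) * w) * hw
  · linear_combination ((-8) * w ^ 7 + (44) * w ^ 6 + (-102) * w ^ 5 + (134) * w ^ 4 + (-110) * w ^ 3 + (54) * w ^ 2 + (-14) * w + (2)) * hw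

theorem good_6 (hw : w ^ 2 + w + 1 = 0) (ha : a ^ 2 + a - 3 = 0) (hr : r ^ 2 + 2 = 0) : Good w (rep w a r g 6) := by
  left
  simp only [rep, up, um, vp, vm, wp, wm]
  refine ⟨?_, ?_, ?_⟩
  · linear_combination ((126) * w ^ 4 + (-516) * w ^ 3 + (780) * w ^ 2 + (-514) * w + (124)) * hw
  · linear_combination ((-216) * w ^ 7 + (756) * w ^ 6 + (-1098) * w ^ 5 + (756) * w ^ 4 + (84) * w ^ 3 + (-654) * w ^ 2 + (496) * w + (-124)) * hw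
  · linear_combination ((-8) * w ^ 7 + (44) * w ^ 6 + (-102) * w ^ 5 + (134) * w ^ 4 + (-110) * w ^ 3 + (54) * w ^ 2 + (-14) * w + (2)) * hw

theorem good_7 (hw : w ^ 2 + w + 1 = 0) (ha : a ^ 2 + a - 3 = 0) (hr : r ^ 2 + 2 = 0) : Good w (rep w a r g 7) := by
  left
  simp only [rep, up, um, vp, vm, wp, wm]
  refine ⟨?_, ?_, ?_⟩
  · ring
  · linear_combination ((-1) * w ^ 4 + (-2) * w ^ 3 + (3) * w ^ 2 + (4) * w + (-7)) * hw + ((-1) * a ^ 4 + (-2) * a ^ 3 + (-1) * a ^ 2 + (-3)) * ha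
  · linear_combination (w ^ 4 + (-4) * w ^ 3 + (9) * w ^ 2 + (-12) * w + (9)) * hw + (a ^ 4 + (2) * a ^ 3 + a ^ 2 + (3)) * ha

theorem good_8 (hw : w ^ 2 + w + 1 = 0) (ha : a ^ 2 + a - 3 = 0) (hr : r ^ 2 + 2 = 0) : Good w (rep w a r g 8) := by
  left
  simp only [rep, up, um, vp, vm, wp, wm]
  refine ⟨?_, ?_, ?_⟩
  · ring
  · linear_combination ((-1) * w ^ 4 + (-2) * w ^ 3 + (3) * w ^ 2 + (4) * w + (-7)) * hw + ((-1) * a ^ 4 + (-2) * a ^ 3 + (-1) * a ^ 2 + (-3)) * ha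
  · linear_combination (w ^ 4 + (-4) * w ^ 3 + (9) * w ^ 2 + (-12) * w + (9)) * hw + (a ^ 4 + (2) * a ^ 3 + a ^ 2 + (3)) * ha

theorem good_9 (hw : w ^ 2 + w + 1 = 0) (ha : a ^ 2 + a - 3 = 0) (hr : r ^ 2 + 2 = 0) : Good w (rep w a r g 9) := by
  left
  simp only [rep, up, um, vp, vm, wp, wm]
  refine ⟨?_, ?_, ?_⟩
  · linear_combination ((2) * w ^ 10 * r ^ 6 + (-2) * w ^ 9 * r ^ 6 + (-3) * w ^ 9 * r ^ 5 + (15) * w ^ 8 * r ^ 5 + (15) * w ^ 8 * r ^ 4 + (2) * w ^ 7 * r ^ 6 + (-12) * w ^ 7 * r ^ 5 + (-15) * w ^ 7 * r ^ 4 + (-25) * w ^ 7 * r ^ 3 + (-2) * w ^ 6 * r ^ 6 + (-3) * w ^ 6 * r ^ 5 + (30) * w ^ 6 * r ^ 4 + (40) * w ^ 6 * r ^ 3 + (15) * w ^ 6 * r ^ 2 + (15) * w ^ 5 * r ^ 5 + (-15) * w ^ 5 * r ^ 4 + (-60) * w ^ 5 * r ^ 2 + (-3) * w ^ 5 * r + (2) * w ^ 4 * r ^ 6 + (-12) * w ^ 4 * r ^ 5 + (-15) * w ^ 4 * r ^ 4 + (33) *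 w ^ 4 * r + (-2) * w ^ 3 * r ^ 6 + (-3) * w ^ 3 * r ^ 5 + (30) * w ^ 3 * r ^ 4 + (60) * w ^ 3 * r ^ 2 + (-15) * w ^ 3 * r + (-6) * w ^ 3 + (15) * w ^ 2 * r ^ 5 + (-15) * w ^ 2 * r ^ 4 + (-30) * w ^ 2 * r ^ 2 + (-48) * w ^ 2 * r + (6) * w ^ 2 + (2) * w * r ^ 6 + (-12) * w * r ^ 5 + (-15) * w * r ^ 4 + (-30) * w * r ^ 2 + (48) * w * r + (10) * w + (-2) * r ^ 6 + (-3) * r ^ 5 + (30) * r ^ 4 + (60) * r ^ 2 + (12) * r + (-16)) * hw + ((15) * w * r ^ 3 + (-15) * w * r ^ 2 + (-30) * w * r + (2) * r ^ 4 + (3) * r ^ 3 + (-34) * r ^ 2 + (-6) * r + (8)) * hr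
  · linear_combination ((-1) * w ^ 13 * r ^ 6 + w ^ 12 * r ^ 6 + (3) * w ^ 12 * r ^ 5 + (-9) * w ^ 11 * r ^ 5 + (-3) * w ^ 11 * r ^ 4 + (-2) * w ^ 10 * r ^ 6 + (6) * w ^ 10 * r ^ 5 + (18) * w ^ 10 * r ^ 4 + w ^ 10 * r ^ 3 + (2) * w ^ 9 * r ^ 6 + (12) * w ^ 9 * r ^ 5 + (-30) * w ^ 9 * r ^ 4 + (-13) * w ^ 9 * r ^ 3 + (-15) * w ^ 8 * r ^ 5 + (-15) * w ^ 8 * r ^ 4 + (42) * w ^ 8 * r ^ 3 + (3) * w ^ 8 * r ^ 2 + (-2) * w ^ 7 * r ^ 6 + (3) * w ^ 7 * r ^ 5 + (30) * w ^ 7 * r ^ 4 + (-10) * w ^ 7 * r ^ 3 + (-21) * w ^ 7 * r ^ 2 + (2) * w ^ 6 * r ^ 6 + (12) * w ^ 6 * r ^ 5 + (-15) * w ^ 6 * r ^ 4 + (-5) * w ^ 6 * r ^ 3 + (21) * w ^ 6 * r ^ 2 + (3) * w ^ 6 * r + (-15) * w ^ 5 * r ^ 5 + (-15) * w ^ 5 * r ^ 4 + (-18) * w ^ 5 * r ^ 2 + (-6) * w ^ 5 * r + (-2) * w ^ 4 * r ^ 6 + (3) * w ^ 4 * r ^ 5 + (30) * w ^ 4 * r ^ 4 + (60) * w ^ 4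 * r ^ 2 + (9) * w ^ 4 * r + (2) * w ^ 3 * r ^ 6 + (12) * w ^ 3 * r ^ 5 + (-15) * w ^ 3 * r ^ 4 + (-30) * w ^ 3 * r ^ 2 + (-42) * w ^ 3 * r + (-15) * w ^ 2 * r ^ 5 + (-15) * w ^ 2 * r ^ 4 + (-30) * w ^ 2 * r ^ 2 + (63) * w ^ 2 * r + (6) * w ^ 2 + (-2) * w * r ^ 6 + (3) * w * r ^ 5 + (30) * w * r ^ 4 + (60) * w * r ^ 2 + (-12) * w * r + (-18) * w + (2) * r ^ 6 + (12) * r ^ 5 + (-15) * r ^ 4 + (-30) * r ^ 2 + (-48) * r + (18)) * hw + ((-15) * w * r ^ 3 + (-15) * w * r ^ 2 + (30) * w * r + (-2) * r ^ 4 + (-12) * r ^ 3 + (19) * r ^ 2 + (24) * r + (-8)) * hr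
  · linear_combination ((-1) * w ^ 13 * r ^ 6 + w ^ 12 * r ^ 6 + (-3) * w ^ 12 * r ^ 5 + (-3) * w ^ 11 * r ^ 5 + (-3) * w ^ 11 * r ^ 4 + (6) * w ^ 10 * r ^ 5 + (-12) * w ^ 10 * r ^ 4 + (-1) * w ^ 10 * r ^ 3 + (-9) * w ^ 9 * r ^ 5 + (-11) * w ^ 9 * r ^ 3 + (30) * w ^ 8 * r ^ 4 + (-18) * w ^ 8 * r ^ 3 + (-3) * w ^ 8 * r ^ 2 + (9) * w ^ 7 * r ^ 5 + (-15) * w ^ 7 * r ^ 4 + (-5) * w ^ 7 * r ^ 3 + (-15) * w ^ 7 * r ^ 2 + (-9) * w ^ 6 * r ^ 5 + (-15) * w ^ 6 * r ^ 4 + (5) * w ^ 6 * r ^ 3 + (6) * w ^ 6 * r ^ 2 + (-3) * w ^ 6 * r + (30) * w ^ 5 * r ^ 4 + (42) * w ^ 5 * r ^ 2 + (-15) * w ^ 5 * r + (9) * w ^ 4 * r ^ 5 + (-15) * w ^ 4 * r ^ 4 + (-30) * w ^ 4 * r ^ 2 + (-6) * w ^ 4 * r + (-9) * w ^ 3 * r ^ 5 + (-15) * w ^ 3 * r ^ 4 + (-30) * w ^ 3 * r ^ 2 + (33) * w ^ 3 * r + (30) * w ^ 2 * r ^ 4 + (60) * w ^ 2 * r ^ 2 + (-3) * w ^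 2 * r + (9) * w * r ^ 5 + (-15) * w * r ^ 4 + (-30) * w * r ^ 2 + (-36) * w * r + (-9) * r ^ 5 + (-15) * r ^ 4 + (-30) * r ^ 2 + (36) * r) * hw + ((30) * w * r ^ 2 + (9) * r ^ 3 + (15) * r ^ 2 + (-18) * r) * hr

theorem good_10 (hw : w ^ 2 + w + 1 = 0) (ha : a ^ 2 + a - 3 = 0) (hr : r ^ 2 + 2 = 0) : Good w (rep w a r g 10) := by
  left
  simp only [rep, up, um, vp, vm, wp, wm]
  refine ⟨?_, ?_, ?_⟩
  · linear_combination ((2) * w ^ 10 * r ^ 6 + (-2) * w ^ 9 * r ^ 6 + (3) * w ^ 9 * r ^ 5 + (-15) * w ^ 8 * r ^ 5 + (15) * w ^ 8 * r ^ 4 + (2) * w ^ 7 * r ^ 6 + (12) * w ^ 7 * r ^ 5 + (-15) * w ^ 7 * r ^ 4 + (25) * w ^ 7 * r ^ 3 + (-2) * w ^ 6 * r ^ 6 + (3) * w ^ 6 * r ^ 5 + (30) * w ^ 6 * r ^ 4 + (-40) * w ^ 6 * r ^ 3 + (15) * w ^ 6 * r ^ 2 + (-15) * w ^ 5 * r ^ 5 + (-15) * w ^ 5 * r ^ 4 + (-60) * w ^ 5 * r ^ 2 + (3) * w ^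 5 * r + (2) * w ^ 4 * r ^ 6 + (12) * w ^ 4 * r ^ 5 + (-15) * w ^ 4 * r ^ 4 + (-33) * w ^ 4 * r + (-2) * w ^ 3 * r ^ 6 + (3) * w ^ 3 * r ^ 5 + (30) * w ^ 3 * r ^ 4 + (60) * w ^ 3 * r ^ 2 + (15) * w ^ 3 * r + (-6) * w ^ 3 + (-15) * w ^ 2 * r ^ 5 + (-15) * w ^ 2 * r ^ 4 + (-30) * w ^ 2 * r ^ 2 + (48) * w ^ 2 * r + (6) * w ^ 2 + (2) * w * r ^ 6 + (12) * w * r ^ 5 + (-15) * w * r ^ 4 + (-30) * w * r ^ 2 + (-48) * w * r + (10) * w + (-2) * r ^ 6 + (3) * r ^ 5 + (30) * r ^ 4 + (60) * r ^ 2 + (-12) * r + (-16)) * hw + ((-15) * w * r ^ 3 + (-15) * w * r ^ 2 + (30) * w * r + (2) * r ^ 4 + (-3) * r ^ 3 + (-34) * r ^ 2 + (6) * r + (8)) * hr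
  · linear_combination ((-1) * w ^ 13 * r ^ 6 + w ^ 12 * r ^ 6 + (-3) * w ^ 12 * r ^ 5 + (9) * w ^ 11 * r ^ 5 + (-3) * w ^ 11 * r ^ 4 + (-2) * w ^ 10 * r ^ 6 + (-6) * w ^ 10 * r ^ 5 + (18) * w ^ 10 * r ^ 4 + (-1) * w ^ 10 * r ^ 3 + (2) * w ^ 9 * r ^ 6 + (-12) * w ^ 9 * r ^ 5 + (-30) * w ^ 9 * r ^ 4 + (13) * w ^ 9 * r ^ 3 + (15) * w ^ 8 * r ^ 5 + (-15) * w ^ 8 * r ^ 4 + (-42) * w ^ 8 * r ^ 3 + (3) * w ^ 8 * r ^ 2 + (-2) * w ^ 7 * r ^ 6 + (-3) * w ^ 7 * r ^ 5 + (30) * w ^ 7 * r ^ 4 + (10) * w ^ 7 * r ^ 3 + (-21) * w ^ 7 * r ^ 2 + (2) * w ^ 6 * r ^ 6 + (-12) * w ^ 6 * r ^ 5 + (-15) * w ^ 6 * r ^ 4 + (5) * w ^ 6 * r ^ 3 + (21) * w ^ 6 * r ^ 2 + (-3) * w ^ 6 * r + (15) * w ^ 5 * r ^ 5 + (-15) * w ^ 5 * r ^ 4 + (-18) * w ^ 5 * r ^ 2 + (6) * w ^ 5 * r + (-2) * w ^ 4 * r ^ 6 + (-3) * w ^ 4 * r ^ 5 + (30) * w ^ 4 * r ^ 4 + (60)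 * w ^ 4 * r ^ 2 + (-9) * w ^ 4 * r + (2) * w ^ 3 * r ^ 6 + (-12) * w ^ 3 * r ^ 5 + (-15) * w ^ 3 * r ^ 4 + (-30) * w ^ 3 * r ^ 2 + (42) * w ^ 3 * r + (15) * w ^ 2 * r ^ 5 + (-15) * w ^ 2 * r ^ 4 + (-30) * w ^ 2 * r ^ 2 + (-63) * w ^ 2 * r + (6) * w ^ 2 + (-2) * w * r ^ 6 + (-3) * w * r ^ 5 + (30) * w * r ^ 4 + (60) * w * r ^ 2 + (12) * w * r + (-18) * w + (2) * r ^ 6 + (-12) * r ^ 5 + (-15) * r ^ 4 + (-30) * r ^ 2 + (48) * r + (18)) * hw + ((15) * w * r ^ 3 + (-15) * w * r ^ 2 + (-30) * w * r + (-2) * r ^ 4 + (12) * r ^ 3 + (19) * r ^ 2 + (-24) * r + (-8)) * hr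
  · linear_combination ((-1) * w ^ 13 * r ^ 6 + w ^ 12 * r ^ 6 + (3) * w ^ 12 * r ^ 5 + (3) * w ^ 11 * r ^ 5 + (-3) * w ^ 11 * r ^ 4 + (-6) * w ^ 10 * r ^ 5 + (-12) * w ^ 10 * r ^ 4 + w ^ 10 * r ^ 3 + (9) * w ^ 9 * r ^ 5 + (11) * w ^ 9 * r ^ 3 + (30) * w ^ 8 * r ^ 4 + (18) * w ^ 8 * r ^ 3 + (-3) * w ^ 8 * r ^ 2 + (-9) * w ^ 7 * r ^ 5 + (-15) * w ^ 7 * r ^ 4 + (5) * w ^ 7 * r ^ 3 + (-15) * w ^ 7 * r ^ 2 + (9) * w ^ 6 * r ^ 5 + (-15) * w ^ 6 * r ^ 4 + (-5) * w ^ 6 * r ^ 3 + (6) * w ^ 6 * r ^ 2 + (3) * w ^ 6 * r + (30) * w ^ 5 * r ^ 4 + (42) * w ^ 5 * r ^ 2 + (15) * w ^ 5 * r + (-9) * w ^ 4 * r ^ 5 + (-15) * w ^ 4 * r ^ 4 + (-30) * w ^ 4 * r ^ 2 + (6) * w ^ 4 * r + (9) * w ^ 3 * r ^ 5 + (-15) * w ^ 3 * r ^ 4 + (-30) * w ^ 3 * r ^ 2 + (-33) * w ^ 3 * r + (30) * w ^ 2 * r ^ 4 + (60) * w ^ 2 * r ^ 2 + (3) * w ^ 2 * r + (-9)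 * w * r ^ 5 + (-15) * w * r ^ 4 + (-30) * w * r ^ 2 + (36) * w * r + (9) * r ^ 5 + (-15) * r ^ 4 + (-30) * r ^ 2 + (-36) * r) * hw + ((30) * w * r ^ 2 + (-9) * r ^ 3 + (15) * r ^ 2 + (18) * r) * hr

theorem good_11 (hg : g ^ 2 + g - 1 = 0) : Good w (rep w a r g 11) := by
  right; left
  simp only [rep, up, vp]
  refine ⟨?_, ?_⟩
  · linear_combination (g ^ 2) * hg
  · linear_combination ((1)) * hg

theorem good_12 (hg : g ^ 2 + g - 1 = 0) : Good w (rep w a r g 12) := by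
  right; left
  simp only [rep, up, vp]
  refine ⟨?_, ?_⟩
  · linear_combination (g ^ 2) * hg
  · linear_combination ((1)) * hg

theorem good_13 (hg : g ^ 2 + g - 1 = 0) : Good w (rep w a r g 13) := by
  right; left
  simp only [rep, up, vp]
  refine ⟨?_, ?_⟩
  · linear_combination (g ^ 2 + (2) * g + (1)) * hg
  · linear_combination ((1)) * hg

theorem good_14 (hg : g ^ 2 + g - 1 = 0) : Good w (rep w a r g 14) := by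
  right; left
  simp only [rep, up, vp]
  refine ⟨?_, ?_⟩
  · linear_combination (g ^ 2 + (2) * g + (1)) * hg
  · linear_combination ((1)) * hg

theorem good_rep (hw : w ^ 2 + w + 1 = 0) (ha : a ^ 2 + a - 3 = 0) (hr : r ^ 2 + 2 = 0)
    (hg : g ^ 2 + g - 1 = 0) (i : ℕ) (hi : i < 15) : Good w (rep w a r g i) := by
  interval_cases i
  · exact good_0 hw ha hr
  · exact good_1 hw ha hr
  · exact good_2 hw ha hr
  · exact good_3 hw ha hr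
  · exact good_4 hw ha hr
  · exact good_5 hw ha hr
  · exact good_6 hw ha hr
  · exact good_7 hw ha hr
  · exact good_8 hw ha hr
  · exact good_9 hw ha hr
  · exact good_10 hw ha hr
  · exact good_11 hg
  · exact good_12 hg
  · exact good_13 hg
  · exact good_14 hg

theorem good_iterate {P : R × R × R} (hw : w ^ 2 + w + 1 = 0) (h : Good w P) (n : ℕ) :
    Good w ((T w)^[n] P) := by
  induction n with
  | zero => exact h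
  | succ n ih => rw [Function.iterate_succ_apply']; exact ih.T hw

theorem good_pt (hw : w ^ 2 + w + 1 = 0) (ha : a ^ 2 + a - 3 = 0) (hr : r ^ 2 + 2 = 0)
    (hg : g ^ 2 + g - 1 = 0) (i : Fin 45) : Good w (pt w a r g i) :=
  good_iterate hw (good_rep hw ha hr hg _ (Nat.mod_lt _ (by norm_num))) _

end ring

/-- Coordinatewise image under a ring homomorphism. -/
def mapP {R S : Type*} [CommRing R] [CommRing S] (f : R →+* S) (P : R × R × R) : S × S × S :=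
  (f P.1, f P.2.1, f P.2.2)

theorem mapP_T {R S : Type*} [CommRing R] [CommRing S] (f : R →+* S) (w : R) (P : R × R × R) :
    mapP f (T w P) = T (f w) (mapP f P) := by
  simp [mapP, T]

theorem mapP_T_iterate {R S : Type*} [CommRing R] [CommRing S] (f : R →+* S) (w : R) (n : ℕ)
    (P : R × R × R) : mapP f ((T w)^[n] P) = (T (f w))^[n] (mapP f P) := by
  induction n with
  | zero => rfl
  | succ n ih => rw [Function.iterate_succ_apply', mapP_T, ih, Function.iterate_succ_apply']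

theorem mapP_rep {R S : Type*} [CommRing R] [CommRing S] (f : R →+* S) (w a r g : R) (i : ℕ)
    (hi : i < 15) : mapP f (rep w a r g i) = rep (f w) (f a) (f r) (f g) i := by
  interval_cases i <;> simp [mapP, rep, map_ofNat]

theorem mapP_pt {R S : Type*} [CommRing R] [CommRing S] (f : R →+* S) (w a r g : R) (i : Fin 45) :
    mapP f (pt w a r g i) = pt (f w) (f a) (f r) (f g) i := by
  rw [pt, mapP_T_iterate, mapP_rep _ _ _ _ _ _ (Nat.mod_lt _ (by norm_num)), pt]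

theorem pt_mod (i : Fin 45) : pt (42 : ZMod 139) 20 50 63 i =
    (((res i).1 : ZMod 139), ((res i).2.1 : ZMod 139), ((res i).2.2 : ZMod 139)) := by
  revert i
  decide

end Pool.Agent.Lib.MP_522d9f_ag
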