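import Pool.Agent.Lib.MP_522d9f_ag.Padic

/-! The polynomials of the counterexample and the linear algebra in degree 8. -/

set_option autoImplicit false

open MvPolynomial

namespace Pool.Agent.Lib.MP_522d9f_ag

section

variable {k : Type*} [Field k]

/-- A triple as a vector. -/
def vec (P : k × k × k) : Fin 3 → k := ![P.1, P.2.1, P.2.2]

theorem eval_smul_of_homog {h : MvPolynomial (Fin 3) k} {d : ℕ} (hh : h.IsHomogeneous d) (c : k)
    (v : Fin 3 → k) : eval (c • v) h = c ^ d * eval v h := by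
  rw [eval_eq', eval_eq', Finset.mul_sum]
  refine Finset.sum_congr rfl fun e he => ?_
  have hd : ∑ i, e i = d := by
    have := hh.degree_eq_sum_deg_support he
    rw [this]
    symm
    refine Finset.sum_subset (Finset.subset_univ _) ?_
    intro i _ hi
    exact Finsupp.notMem_support_iff.mp hi
  have : ∏ i, (c • v) i ^ e i = c ^ d * ∏ i, v i ^ e i := by
    rw [← hd, ← Finset.prod_pow_eq_pow_sum, ← Finset.prod_mul_distrib]
    refine Finset.prod_congr rfl fun i _ => ?_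
    rw [Pi.smul_apply, smul_eq_mul, mul_pow]
  rw [this]; ring

/-- The monomial exponent with given index. -/
noncomputable def mon (m : Fin 45) : Fin 3 →₀ ℕ :=
  Finsupp.equivFunOnFinite.symm ![(expo m).1, (expo m).2.1, (expo m).2.2]

theorem mon_0 (m : Fin 45) : mon m 0 = (expo m).1 := by simp [mon]
theorem mon_1 (m : Fin 45) : mon m 1 = (expo m).2.1 := by simp [mon]
theorem mon_2 (m : Fin 45) : mon m 2 = (expo m).2.2 := by simp [mon]

theorem expo_inj : ∀ m m' : Fin 45, (expo m).1 = (expo m').1 → (expo m).2.1 = (expo m').2.1 →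
    (expo m).2.2 = (expo m').2.2 → m = m' := by decide +kernel

theorem mon_inj : Function.Injective mon := by
  intro m m' h
  apply expo_inj
  · rw [← mon_0, ← mon_0, h]
  · rw [← mon_1, ← mon_1, h]
  · rw [← mon_2, ← mon_2, h]

theorem expo_surj : ∀ a b c : Fin 9, (a : ℕ) + b + c = 8 →
    ∃ m : Fin 45, (expo m).1 = a ∧ (expo m).2.1 = b ∧ (expo m).2.2 = c := by decide +kernel

theorem mon_surj (e : Fin 3 →₀ ℕ) (he : e 0 + e 1 + e 2 = 8) : ∃ m : Fin 45, mon m = e := by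
  obtain ⟨m, h0, h1, h2⟩ := expo_surj ⟨e 0, by omega⟩ ⟨e 1, by omega⟩ ⟨e 2, by omega⟩ he
  refine ⟨m, ?_⟩
  ext i
  fin_cases i
  · exact (mon_0 m).trans h0
  · exact (mon_1 m).trans h1
  · exact (mon_2 m).trans h2

theorem eval_deg8 {g : MvPolynomial (Fin 3) k} (hg : g.IsHomogeneous 8) (P : k × k × k) :
    eval (vec P) g = ∑ m : Fin 45, P.1 ^ (expo m).1 * P.2.1 ^ (expo m).2.1 * P.2.2 ^ (expo m).2.2 *
      coeff (mon m) g := by
  rw [eval_eq']
  have hsub : g.support ⊆ Finset.univ.image mon := by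
    intro e he
    have h8 := hg.degree_eq_sum_deg_support he
    have h8' : ∑ i, e i = 8 := by
      rw [h8]
      symm
      refine Finset.sum_subset (Finset.subset_univ _) ?_
      intro i _ hi
      exact Finsupp.notMem_support_iff.mp hi
    rw [Fin.sum_univ_three] at h8'
    obtain ⟨m, hm⟩ := mon_surj e h8'
    exact Finset.mem_image.mpr ⟨m, Finset.mem_univ _, hm⟩
  rw [Finset.sum_subset hsub]
  · rw [Finset.sum_image (fun a _ b _ h => mon_inj h)]
    refine Finset.sum_congr rfl fun m _ => ?_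
    rw [Fin.prod_univ_three, mon_0, mon_1, mon_2]
    simp only [vec, Matrix.cons_val_zero, Matrix.cons_val_one, Matrix.cons_val]
    ring
  · intro e _ he
    rw [notMem_support_iff] at he
    rw [he, zero_mul]

/-- No nonzero form of degree 8 vanishes at 45 points with invertible evaluation matrix. -/
theorem eq_zero_of_deg8 {g : MvPolynomial (Fin 3) k} (hg : g.IsHomogeneous 8)
    (P : Fin 45 → k × k × k) (hdet : (evalMat P).det ≠ 0) (hP : ∀ i, eval (vec (P i)) g = 0) :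
    g = 0 := by
  have h0 : (evalMat P).mulVec (fun m => coeff (mon m) g) = 0 := by
    funext i
    have := hP i
    rw [eval_deg8 hg] at this
    simpa [Matrix.mulVec, dotProduct, evalMat] using this
  have h1 := Matrix.eq_zero_of_mulVec_eq_zero hdet h0
  ext e
  rw [coeff_zero]
  by_cases he : e.degree = 8
  · have he' : e 0 + e 1 + e 2 = 8 := by
      rw [← he, Finsupp.degree_eq_sum, Fin.sum_univ_three]
    obtain ⟨m, rfl⟩ := mon_surj e he'
    exact congrFun h1 m
  · exact hg.coeff_eq_zero he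

theorem eq_zero_of_le8 {g : MvPolynomial (Fin 3) k} {s : ℕ} (hs : s ≤ 8) (hg : g.IsHomogeneous s)
    (P : Fin 45 → k × k × k) (hdet : (evalMat P).det ≠ 0) (hP : ∀ i, eval (vec (P i)) g = 0) :
    g = 0 := by
  have h8 : (X 0 ^ (8 - s) * g).IsHomogeneous 8 := by
    have := (isHomogeneous_X_pow (R := k) (0 : Fin 3) (8 - s)).mul hg
    rwa [Nat.sub_add_cancel hs] at this
  have := eq_zero_of_deg8 h8 P hdet (fun i => by rw [map_mul, hP i, mul_zero])
  rcases mul_eq_zero.mp this with h | h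
  · exact absurd h (pow_ne_zero _ (X_ne_zero (R := k) (0 : Fin 3)))
  · exact h

/-- The six quadrics as polynomials. -/
noncomputable def Up : MvPolynomial (Fin 3) k := X 1 ^ 2 + X 1 * X 2 - X 2 ^ 2
noncomputable def Um : MvPolynomial (Fin 3) k := X 1 ^ 2 - X 1 * X 2 - X 2 ^ 2
noncomputable def Vp : MvPolynomial (Fin 3) k := X 2 ^ 2 + X 2 * X 0 - X 0 ^ 2
noncomputable def Vm : MvPolynomial (Fin 3) k := X 2 ^ 2 - X 2 * X 0 - X 0 ^ 2
noncomputable def Wp (w : k) : MvPolynomial (Fin 3) k :=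
  X 0 ^ 2 + C (w ^ 2) * (X 0 * X 1) - C w * X 1 ^ 2
noncomputable def Wm (w : k) : MvPolynomial (Fin 3) k :=
  X 0 ^ 2 - C (w ^ 2) * (X 0 * X 1) - C w * X 1 ^ 2

theorem hX2 (i : Fin 3) : (X i ^ 2 : MvPolynomial (Fin 3) k).IsHomogeneous 2 :=
  isHomogeneous_X_pow i 2

theorem hXX (i j : Fin 3) : (X i * X j : MvPolynomial (Fin 3) k).IsHomogeneous 2 :=
  (isHomogeneous_X k i).mul (isHomogeneous_X k j)

theorem Up_homog : (Up : MvPolynomial (Fin 3) k).IsHomogeneous 2 := ((hX2 1).add (hXX 1 2)).sub (hX2 2)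
theorem Um_homog : (Um : MvPolynomial (Fin 3) k).IsHomogeneous 2 := ((hX2 1).sub (hXX 1 2)).sub (hX2 2)
theorem Vp_homog : (Vp : MvPolynomial (Fin 3) k).IsHomogeneous 2 := ((hX2 2).add (hXX 2 0)).sub (hX2 0)
theorem Vm_homog : (Vm : MvPolynomial (Fin 3) k).IsHomogeneous 2 := ((hX2 2).sub (hXX 2 0)).sub (hX2 0)
theorem Wp_homog (w : k) : (Wp w).IsHomogeneous 2 :=
  ((hX2 0).add ((hXX 0 1).C_mul _)).sub ((hX2 1).C_mul _)
theorem Wm_homog (w : k) : (Wm w).IsHomogeneous 2 :=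
  ((hX2 0).sub ((hXX 0 1).C_mul _)).sub ((hX2 1).C_mul _)

theorem eval_Up (P : k × k × k) : eval (vec P) Up = up P := by simp [Up, up, vec]
theorem eval_Um (P : k × k × k) : eval (vec P) Um = um P := by simp [Um, um, vec]
theorem eval_Vp (P : k × k × k) : eval (vec P) Vp = vp P := by simp [Vp, vp, vec]
theorem eval_Vm (P : k × k × k) : eval (vec P) Vm = vm P := by simp [Vm, vm, vec]
theorem eval_Wp (w : k) (P : k × k × k) : eval (vec P) (Wp w) = wp w P := by
  simp [Wp, wp, vec]; ring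
theorem eval_Wm (w : k) (P : k × k × k) : eval (vec P) (Wm w) = wm w P := by
  simp [Wm, wm, vec]; ring

/-- The degree 18 form. -/
noncomputable def F18 (w : k) : MvPolynomial (Fin 3) k :=
  (Up ^ 3 + Vp ^ 3) * (Um ^ 3 + Wp w ^ 3) * (Vm ^ 3 + Wm w ^ 3)

theorem C1_homog : (Up ^ 3 + Vp ^ 3 : MvPolynomial (Fin 3) k).IsHomogeneous 6 :=
  (Up_homog.pow 3).add (Vp_homog.pow 3)
theorem C2_homog (w : k) : (Um ^ 3 + Wp w ^ 3 : MvPolynomial (Fin 3) k).IsHomogeneous 6 :=
  (Um_homog.pow 3).add ((Wp_homog w).pow 3)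
theorem C3_homog (w : k) : (Vm ^ 3 + Wm w ^ 3 : MvPolynomial (Fin 3) k).IsHomogeneous 6 :=
  (Vm_homog.pow 3).add ((Wm_homog w).pow 3)

theorem F18_homog (w : k) : (F18 w).IsHomogeneous 18 := (C1_homog.mul (C2_homog w)).mul (C3_homog w)

theorem F18_ne_zero (w : k) (hw : w ^ 2 + w + 1 = 0) : F18 w ≠ 0 := by
  intro h
  have hw0 : w ≠ 0 := by
    rintro rfl; simp at hw
  rcases mul_eq_zero.mp h with h | h
  · rcases mul_eq_zero.mp h with h | h
    · have := congrArg (eval (vec ((0, 1, 0) : k × k × k))) h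
      rw [map_add, map_pow, map_pow, eval_Up, eval_Vp] at this
      simp [up, vp] at this
    · have := congrArg (eval (vec ((1, 0, 0) : k × k × k))) h
      rw [map_add, map_pow, map_pow, eval_Um, eval_Wp] at this
      simp [um, wp] at this
  · have := congrArg (eval (vec ((0, 0, 1) : k × k × k))) h
    rw [map_add, map_pow, map_pow, eval_Vm, eval_Wm] at this
    simp [vm, wm] at this

/-- Membership of the degree 18 form in the cube of an ideal, for the four reasons. -/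
theorem F18_mem (w : k) (P : k × k × k) (hP : Good w P) (I : Ideal (MvPolynomial (Fin 3) k))
    (hI : ∀ (h : MvPolynomial (Fin 3) k) (d : ℕ), h.IsHomogeneous d → eval (vec P) h = 0 → h ∈ I) :
    F18 w ∈ I ^ 3 := by
  rcases hP with ⟨h1, h2, h3⟩ | ⟨h1, h2⟩ | ⟨h1, h2⟩ | ⟨h1, h2⟩
  · have m1 : (Up ^ 3 + Vp ^ 3 : MvPolynomial (Fin 3) k) ∈ I := hI _ 6 C1_homog (by
      rw [map_add, map_pow, map_pow, eval_Up, eval_Vp]; exact h1)
    have m2 : (Um ^ 3 + Wp w ^ 3 : MvPolynomial (Fin 3) k) ∈ I := hI _ 6 (C2_homog w) (by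
      rw [map_add, map_pow, map_pow, eval_Um, eval_Wp]; exact h2)
    have m3 : (Vm ^ 3 + Wm w ^ 3 : MvPolynomial (Fin 3) k) ∈ I := hI _ 6 (C3_homog w) (by
      rw [map_add, map_pow, map_pow, eval_Vm, eval_Wm]; exact h3)
    have : F18 w ∈ I * I * I := Ideal.mul_mem_mul (Ideal.mul_mem_mul m1 m2) m3
    rwa [show I ^ 3 = I * I * I by ring]
  · have m1 : (Up : MvPolynomial (Fin 3) k) ∈ I := hI _ 2 Up_homog (by rw [eval_Up]; exact h1)
    have m2 : (Vp : MvPolynomial (Fin 3) k) ∈ I := hI _ 2 Vp_homog (by rw [eval_Vp]; exact h2)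
    have m : (Up ^ 3 + Vp ^ 3 : MvPolynomial (Fin 3) k) ∈ I ^ 3 :=
      add_mem (Ideal.pow_mem_pow m1 3) (Ideal.pow_mem_pow m2 3)
    exact Ideal.mul_mem_right _ _ (Ideal.mul_mem_right _ _ m)
  · have m1 : (Um : MvPolynomial (Fin 3) k) ∈ I := hI _ 2 Um_homog (by rw [eval_Um]; exact h1)
    have m2 : (Wp w : MvPolynomial (Fin 3) k) ∈ I := hI _ 2 (Wp_homog w) (by rw [eval_Wp]; exact h2)
    have m : (Um ^ 3 + Wp w ^ 3 : MvPolynomial (Fin 3) k) ∈ I ^ 3 :=
      add_mem (Ideal.pow_mem_pow m1 3) (Ideal.pow_mem_pow m2 3)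
    exact Ideal.mul_mem_right _ _ (Ideal.mul_mem_left _ _ m)
  · have m1 : (Vm : MvPolynomial (Fin 3) k) ∈ I := hI _ 2 Vm_homog (by rw [eval_Vm]; exact h1)
    have m2 : (Wm w : MvPolynomial (Fin 3) k) ∈ I := hI _ 2 (Wm_homog w) (by rw [eval_Wm]; exact h2)
    have m : (Vm ^ 3 + Wm w ^ 3 : MvPolynomial (Fin 3) k) ∈ I ^ 3 :=
      add_mem (Ideal.pow_mem_pow m1 3) (Ideal.pow_mem_pow m2 3)
    exact Ideal.mul_mem_left _ _ m

end

end Pool.Agent.Lib.MP_522d9f_ag
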